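import Mathlib
import Pool.Agent.RatTet.DisFinal

set_option autoImplicit false

namespace Pool.Agent.Results.MP_67427b_nt.Disphenoids

/-- Every disphenoid (tetrahedron with three pairs of equal opposite edges, equivalently with four
congruent faces) is approximated arbitrarily closely by disphenoids whose six edge lengths, four face
areas and volume are all rational. -/
theorem result :
    ∀ p : Fin 4 → EuclideanSpace ℝ (Fin 3), AffineIndependent ℝ p →
      dist (p 0) (p 1) = dist (p 2) (p 3) → dist (p 0) (p 2) = dist (p 1) (p 3) →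
      dist (p 0) (p 3) = dist (p 1) (p 2) →
      ∀ ε : ℝ, ε > 0 →
        ∃ q : Fin 4 → EuclideanSpace ℝ (Fin 3),
          AffineIndependent ℝ q ∧
          (∀ i, dist (p i) (q i) < ε) ∧
          dist (q 0) (q 1) = dist (q 2) (q 3) ∧ dist (q 0) (q 2) = dist (q 1) (q 3) ∧
          dist (q 0) (q 3) = dist (q 1) (q 2) ∧
          (∀ i j, ∃ r : ℚ, (r : ℝ) = dist (q i) (q j)) ∧
          (∀ i j k, ∃ r : ℚ, (r : ℝ) =
            Real.sqrt ((dist (q i) (q j) + dist (q j) (q k) + dist (q i) (q k)) *
              (-dist (q i) (q j) + dist (q j) (q k) + dist (q i) (q k)) *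
              (dist (q i) (q j) - dist (q j) (q k) + dist (q i) (q k)) *
              (dist (q i) (q j) + dist (q j) (q k) - dist (q i) (q k))) / 4) ∧
          (∃ r : ℚ, (r : ℝ) =
            |Matrix.det (Matrix.of (fun a b : Fin 3 =>
              WithLp.ofLp (q a.succ - q 0) b))| / 6) := by
  intro p hp h1 h2 h3 ε hε
  exact Pool.Agent.RatTet.Dis.main_dis p hp h1 h2 h3 ε hε

end Pool.Agent.Results.MP_67427b_nt.Disphenoids
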