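import Mathlib
import Pool.Agent.RatTet.Final

set_option autoImplicit false

namespace Pool.Agent.Results.MP_67427b_nt.PlaneOfSymmetry

/-- Every tetrahedron with a plane of symmetry (two vertices equidistant from each of the other
two) is approximated arbitrarily closely by tetrahedra whose six edge lengths, four face areas and
volume are all rational. -/
theorem result :
    ∀ p : Fin 4 → EuclideanSpace ℝ (Fin 3), AffineIndependent ℝ p →
      (∃ σ : Equiv.Perm (Fin 4), dist (p (σ 0)) (p (σ 2)) = dist (p (σ 1)) (p (σ 2)) ∧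
        dist (p (σ 0)) (p (σ 3)) = dist (p (σ 1)) (p (σ 3))) →
      ∀ ε : ℝ, ε > 0 →
        ∃ q : Fin 4 → EuclideanSpace ℝ (Fin 3),
          AffineIndependent ℝ q ∧
          (∀ i, dist (p i) (q i) < ε) ∧
          (∀ i j, ∃ r : ℚ, (r : ℝ) = dist (q i) (q j)) ∧
          (∀ i j k, ∃ r : ℚ, (r : ℝ) =
            Real.sqrt ((dist (q i) (q j) + dist (q j) (q k) + dist (q i) (q k)) *
              (-dist (q i) (q j) + dist (q j) (q k) + dist (q i) (q k)) *
              (dist (q i) (q j) - dist (q j) (q k) + dist (q i) (q k)) *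
              (dist (q i) (q j) + dist (q j) (q k) - dist (q i) (q k))) / 4) ∧
          (∃ r : ℚ, (r : ℝ) =
            |Matrix.det (Matrix.of (fun a b : Fin 3 =>
              WithLp.ofLp (q a.succ - q 0) b))| / 6) := by
  rintro p hp ⟨σ, h1, h2⟩ ε hε
  exact Pool.Agent.RatTet.main p hp σ (Or.inr ⟨h1, h2⟩) ε hε

end Pool.Agent.Results.MP_67427b_nt.PlaneOfSymmetry
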