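import Mathlib
import Pool.Agent.RT10.OneEdge

set_option autoImplicit false

namespace Pool.Agent.Results.MP_67427b_nt.TenOfEleven

/-- Every tetrahedron is approximated arbitrarily closely by tetrahedra for which ten of the eleven
quantities (six edge lengths, four face areas, volume) are rational, the omitted quantity being the area
of any prescribed face (first part) or the length of any prescribed edge (second part). -/
theorem result :
    ∀ p : Fin 4 → EuclideanSpace ℝ (Fin 3), AffineIndependent ℝ p → ∀ ε : ℝ, ε > 0 →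
      (∀ v : Fin 4,
        ∃ q : Fin 4 → EuclideanSpace ℝ (Fin 3),
          AffineIndependent ℝ q ∧
          (∀ i, dist (p i) (q i) < ε) ∧
          (∀ i j, ∃ r : ℚ, (r : ℝ) = dist (q i) (q j)) ∧
          (∀ j k, ∃ r : ℚ, (r : ℝ) =
            Real.sqrt ((dist (q v) (q j) + dist (q j) (q k) + dist (q v) (q k)) *
              (-dist (q v) (q j) + dist (q j) (q k) + dist (q v) (q k)) *
              (dist (q v) (q j) - dist (q j) (q k) + dist (q v) (q k)) *
              (dist (q v) (q j) + dist (q j) (q k) - dist (q v) (q k))) / 4) ∧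
          (∃ r : ℚ, (r : ℝ) =
            |Matrix.det (Matrix.of (fun a b : Fin 3 =>
              WithLp.ofLp (q a.succ - q 0) b))| / 6)) ∧
      (∀ a b : Fin 4, a ≠ b →
        ∃ q : Fin 4 → EuclideanSpace ℝ (Fin 3),
          AffineIndependent ℝ q ∧
          (∀ i, dist (p i) (q i) < ε) ∧
          (∀ i j, ¬ (i = a ∧ j = b) → ¬ (i = b ∧ j = a) → ∃ r : ℚ, (r : ℝ) = dist (q i) (q j)) ∧
          (∀ i j k, ∃ r : ℚ, (r : ℝ) =
            Real.sqrt ((dist (q i) (q j) + dist (q j) (q k) + dist (q i) (q k)) *
              (-dist (q i) (q j) + dist (q j) (q k) + dist (q i) (q k)) *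
              (dist (q i) (q j) - dist (q j) (q k) + dist (q i) (q k)) *
              (dist (q i) (q j) + dist (q j) (q k) - dist (q i) (q k))) / 4) ∧
          (∃ r : ℚ, (r : ℝ) =
            |Matrix.det (Matrix.of (fun a b : Fin 3 =>
              WithLp.ofLp (q a.succ - q 0) b))| / 6)) := by
  intro p hp ε hε
  exact ⟨fun v => Pool.Agent.RT10.main10 p hp v ε hε,
    fun a b hab => Pool.Agent.RT10.mainE p hp a b hab ε hε⟩

end Pool.Agent.Results.MP_67427b_nt.TenOfEleven
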